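import Pool.Agent.U854.CFB.Main

/-!
# Conjecture F of Hardy and Littlewood for almost all quadratic polynomials of height at most `H`

For all but at most `(log H)^(-U)` times the number of all triples `1 ≤ a ≤ H`, `|b|, |c| ≤ H`, the admissible
`f(t) = a t² + b t + c` satisfy: the product `C(a, b, c)` converges to a positive number, and for ALL `x` with
`H ^ ε ≤ x ≤ H / (log H) ^ B`

`π_f(x) = 2 C(a, b, c) (1 + O((log H)^(-U))) ∑_{t ≤ x, f(t) ≥ 2} 1 / log f(t)`,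

which is the formula of Conjecture F in this range (for a fixed `f` the right hand side is `∼ C(a, b, c) Li(x)`).
In particular `f(t)` is prime for some `t ≤ H ^ ε`.

Proof: `TH892/FullBox` (starting files: the formula with the product over the primes `p ≤ (log H)^E`, for almost all
polynomials of every fixed degree) and `TH892/CF` (starting files: for almost all triples the rest of the product
`C(a, b, c)` is `1 + O((log H)^(-V))`), put together in `U854/CFB`.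
-/

set_option autoImplicit false

namespace Pool.Agent.Results.MP_a17b09_nt.AlmostAllTriples

open Finset Filter Topology

/-- The polynomial. -/
def f (a b c : ℤ) (t : ℕ) : ℤ := a * (t : ℤ) ^ 2 + b * (t : ℤ) + c

/-- The triple `(a, b, c)` is admissible. -/
def Admissible (a b c : ℤ) : Prop :=
  0 < a ∧ Int.gcd (Int.gcd a b : ℤ) c = 1 ∧ ¬ (Even (a + b) ∧ Even c) ∧ ¬ IsSquare (b ^ 2 - 4 * a * c)

/-- The products which define `C(a, b, c)`, over the primes `p ≤ z` (`jacobiSym Δ p` is the Legendre symbol). -/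
noncomputable def partialC (a b c : ℤ) (z : ℕ) : ℝ :=
  (if Odd (a + b) then 1 / 2 else 1) *
    (∏ p ∈ (Icc 3 z).filter (fun p : ℕ => p.Prime ∧ (p : ℤ) ∣ a ∧ (p : ℤ) ∣ b), (p : ℝ) / (p - 1)) *
    ∏ p ∈ (Icc 3 z).filter (fun p : ℕ => p.Prime ∧ ¬ (p : ℤ) ∣ a),
      (1 - (jacobiSym (b ^ 2 - 4 * a * c) p : ℝ) / (p - 1))

/-- `K = C(a, b, c)`: the products over the primes, in increasing order, converge to `K`. -/
def IsC (a b c : ℤ) (K : ℝ) : Prop := Tendsto (partialC a b c) atTop (𝓝 K)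

/-- `π_f(x)`. -/
def count (a b c : ℤ) (x : ℕ) : ℕ := ((Icc 1 x).filter (fun t : ℕ => (f a b c t).toNat.Prime)).card

/-- The sum of `1 / log f(t)` over the `1 ≤ t ≤ x` with `f(t) ≥ 2`. -/
noncomputable def logSum (a b c : ℤ) (x : ℕ) : ℝ :=
  ∑ t ∈ (Icc 1 x).filter (fun t : ℕ => 2 ≤ f a b c t), 1 / Real.log ((f a b c t : ℤ) : ℝ)

/-- The conclusion for one triple: the product for `C(a, b, c)` converges to some `K > 0`, and
`π_f(x) = (1 + θ (log H) ^ (-U)) 2 K logSum(x)`, `|θ| ≤ 1`, for all `H ^ ε ≤ x ≤ H / (log H) ^ B`. -/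
def Good (ε : ℝ) (U B H : ℕ) (a b c : ℤ) : Prop :=
  ∃ K : ℝ, 0 < K ∧ IsC a b c K ∧ ∀ x : ℕ, (H : ℝ) ^ ε ≤ x → (x : ℝ) * Real.log H ^ B ≤ H →
    0 < logSum a b c x ∧
    |(count a b c x : ℝ) - 2 * K * logSum a b c x| ≤ 2 * K * logSum a b c x / Real.log H ^ U

/-- All triples with `1 ≤ a ≤ H`, `|b| ≤ H`, `|c| ≤ H`. -/
noncomputable def triples (H : ℕ) : Finset (ℤ × ℤ × ℤ) :=
  Icc (1 : ℤ) H ×ˢ Icc (-(H : ℤ)) H ×ˢ Icc (-(H : ℤ)) H

open Classical in
/-- The number of the admissible triples with `1 ≤ a ≤ H`, `|b| ≤ H`, `|c| ≤ H` for which the conclusion fails. -/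
noncomputable def exceptions (ε : ℝ) (U B H : ℕ) : ℕ :=
  ((triples H).filter (fun t => Admissible t.1 t.2.1 t.2.2 ∧ ¬ Good ε U B H t.1 t.2.1 t.2.2)).card

lemma adm {a b c : ℤ} (h : Admissible a b c) : Pool.Agent.W468.ConjF.Admissible a b c := by
  obtain ⟨h1, h2, h3, h4⟩ := h
  refine ⟨h1, ?_, ?_, h4⟩
  · intro d ha hb hc
    have h5 : d ∣ (Int.gcd (Int.gcd a b : ℤ) c : ℤ) := Int.dvd_coe_gcd (Int.dvd_coe_gcd ha hb) hc
    rw [h2] at h5
    exact isUnit_of_dvd_one (by exact_mod_cast h5)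
  · rintro ⟨ha, hc⟩
    exact h3 ⟨even_iff_two_dvd.2 ha, even_iff_two_dvd.2 hc⟩

lemma part_eq (a b c : ℤ) (z : ℕ) : Pool.Agent.W468.ConjF.CF a b c z = partialC a b c z := by
  unfold Pool.Agent.W468.ConjF.CF partialC
  have h0 : (if (2 : ℤ) ∣ a + b then (1 : ℝ) else 1 / 2) = if Odd (a + b) then 1 / 2 else 1 := by
    by_cases h : (2 : ℤ) ∣ a + b
    · rw [if_pos h, if_neg (by rw [Int.not_odd_iff_even]; exact even_iff_two_dvd.2 h)]
    · rw [if_neg h, if_pos (by rw [← Int.not_even_iff_odd]; exact fun h' => h (even_iff_two_dvd.1 h'))]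
  have h1 : (range (z + 1)).filter (fun p : ℕ => p.Prime ∧ 3 ≤ p ∧ (p : ℤ) ∣ a ∧ (p : ℤ) ∣ b) =
      (Icc 3 z).filter (fun p : ℕ => p.Prime ∧ (p : ℤ) ∣ a ∧ (p : ℤ) ∣ b) := by
    ext p
    simp only [mem_filter, mem_range, mem_Icc]
    constructor
    · rintro ⟨h1, h2, h3, h4⟩
      exact ⟨⟨h3, by omega⟩, h2, h4⟩
    · rintro ⟨⟨h1, h2⟩, h3, h4⟩
      exact ⟨by omega, h3, h1, h4⟩
  have h2 : (range (z + 1)).filter (fun p : ℕ => p.Prime ∧ 3 ≤ p ∧ ¬ (p : ℤ) ∣ a) =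
      (Icc 3 z).filter (fun p : ℕ => p.Prime ∧ ¬ (p : ℤ) ∣ a) := by
    ext p
    simp only [mem_filter, mem_range, mem_Icc]
    constructor
    · rintro ⟨h1, h2, h3, h4⟩
      exact ⟨⟨h3, by omega⟩, h2, h4⟩
    · rintro ⟨⟨h1, h2⟩, h3, h4⟩
      exact ⟨by omega, h3, h1, h4⟩
  rw [h0, h1, h2]

/-- **Conjecture F for almost all triples.** -/
theorem result (ε : ℝ) (hε : 0 < ε) (U : ℕ) : ∃ B H₀ : ℕ, ∀ H : ℕ, H₀ ≤ H →
    (exceptions ε U B H : ℝ) ≤ (triples H).card / Real.log H ^ U := by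
  classical
  obtain ⟨B, H₀, h⟩ := Pool.Agent.U854.CFB.main ε hε U
  refine ⟨B, H₀, fun H hH => ?_⟩
  obtain ⟨Bad, h1, h2, h3⟩ := h H hH
  refine le_trans ?_ h2
  unfold exceptions
  have hsub : (triples H).filter (fun t => Admissible t.1 t.2.1 t.2.2 ∧ ¬ Good ε U B H t.1 t.2.1 t.2.2) ⊆ Bad := by
    intro t ht
    rw [mem_filter] at ht
    obtain ⟨ht, hadm, hng⟩ := ht
    by_contra hB
    apply hng
    obtain ⟨K, hK0, hK, hx⟩ := h3 t ht hB (adm hadm)
    refine ⟨K, hK0, ?_, fun x hx1 hx2 => hx x hx1 hx2⟩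
    refine hK.congr (fun z => part_eq _ _ _ z)
  exact_mod_cast card_le_card hsub

end Pool.Agent.Results.MP_a17b09_nt.AlmostAllTriples
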