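import Pool.Agent.U746.AS.CF

set_option autoImplicit false

/-!
# Conjecture F of Hardy and Littlewood along arbitrary sets of arguments, for almost all constant terms

Fix integers `a > 0` and `b`, and put `f(t) = a t² + b t + c`. For every `ε > 0` there is a `w₀` such that for every
`w ≥ w₀`, all large `x`, all `H` with `x² / B ≤ H ≤ B x²` and **every set `S` of positive integers**, all but at most `ε H`
of the `1 ≤ c ≤ H` for which `(a, b, c)` is admissible satisfy: the product `C(a, b, c)` converges to a `K > 0`, and for all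
`y ≤ x`

`#{t ≤ y : t ∈ S, f(t) prime} = K S_w(y) / log x + O(ε x / log x)`.

Here `S_w(y) = #{t ≤ y : t ∈ S, f(t) has no prime factor ≤ w} / ∏_{p ≤ w} (1 - ρ(p) / p)`, `ρ(p)` the number of the zeros of
`f` modulo `p`, is the number of the elements `t ≤ y` of `S`, corrected by the distribution of `S` in the residue classes
modulo the product of the primes `p ≤ w`, where `w` does not depend on `x`. If `S` is equidistributed in these classes (for
instance, if it contains all integers), then `S_w(y)` is the number of the elements `t ≤ y` of `S` up to `o(x)`. So a fixed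
finite amount of local information on an arbitrary set of arguments decides how many of the values of `f` at its elements
are prime, in the way predicted by Conjecture F.
-/

namespace Pool.Agent.Results.MP_a17b09_nt.ArbitrarySets

open Finset Filter Topology

/-- The polynomial. -/
def f (a b c : ℤ) (t : ℕ) : ℤ := a * (t : ℤ) ^ 2 + b * (t : ℤ) + c

/-- The triple `(a, b, c)`, `a > 0`, is admissible. -/
def Admissible (a b c : ℤ) : Prop :=
  0 < a ∧ Int.gcd (Int.gcd a b : ℤ) c = 1 ∧ ¬ (Even (a + b) ∧ Even c) ∧ ¬ IsSquare (b ^ 2 - 4 * a * c)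

/-- The products which define `C(a, b, c)`, over the primes `p ≤ z` (`jacobiSym Δ p` is the Legendre symbol). -/
noncomputable def partialC (a b c : ℤ) (z : ℕ) : ℝ :=
  (if Odd (a + b) then 1 / 2 else 1) *
    (∏ p ∈ (Icc 3 z).filter (fun p : ℕ => p.Prime ∧ (p : ℤ) ∣ a ∧ (p : ℤ) ∣ b), (p : ℝ) / (p - 1)) *
    ∏ p ∈ (Icc 3 z).filter (fun p : ℕ => p.Prime ∧ ¬ (p : ℤ) ∣ a),
      (1 - (jacobiSym (b ^ 2 - 4 * a * c) p : ℝ) / (p - 1))

/-- `K = C(a, b, c)`: the products over the primes, in increasing order, converge to `K`. -/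
def IsC (a b c : ℤ) (K : ℝ) : Prop := Tendsto (partialC a b c) atTop (𝓝 K)

open Classical in
/-- The number of the `1 ≤ t ≤ y` in `S` for which `f(t)` is a (positive) prime. -/
noncomputable def primesAt (a b c : ℤ) (S : Set ℕ) (y : ℕ) : ℕ :=
  ((Icc 1 y).filter (fun t : ℕ => t ∈ S ∧ (f a b c t).toNat.Prime)).card

open Classical in
/-- The number of the `1 ≤ t ≤ y` in `S` for which `f(t)` is divisible by no prime `p ≤ w`. -/
noncomputable def sifted (a b c : ℤ) (S : Set ℕ) (w y : ℕ) : ℕ :=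
  ((Icc 1 y).filter (fun t : ℕ => t ∈ S ∧ ∀ p : ℕ, p.Prime → p ≤ w → ¬ (p : ℤ) ∣ f a b c t)).card

/-- The number of the zeros of `f` modulo `p`. -/
def rho (a b c : ℤ) (p : ℕ) : ℕ := ((range p).filter (fun r : ℕ => (p : ℤ) ∣ f a b c r)).card

/-- `S_w(y)`: the number of the elements `t ≤ y` of `S`, corrected by the local densities at the primes `p ≤ w`. -/
noncomputable def corrected (a b c : ℤ) (S : Set ℕ) (w y : ℕ) : ℝ :=
  sifted a b c S w y / ∏ p ∈ (Icc 1 w).filter Nat.Prime, (1 - (rho a b c p : ℝ) / p)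

/-- The formula of Conjecture F for the arguments from `S`, for one constant term. -/
def Good (a b : ℤ) (S : Set ℕ) (ε : ℝ) (w x : ℕ) (c : ℤ) : Prop :=
  ∃ K : ℝ, 0 < K ∧ IsC a b c K ∧ ∀ y ≤ x,
    |(primesAt a b c S y : ℝ) - K * corrected a b c S w y / Real.log x| ≤ ε * x / Real.log x

open Classical in
/-- The constant terms `1 ≤ c ≤ H` for which `(a, b, c)` is admissible and the formula fails. -/
noncomputable def exceptions (a b : ℤ) (S : Set ℕ) (ε : ℝ) (w x H : ℕ) : Finset ℕ :=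
  (Icc 1 H).filter (fun c : ℕ => Admissible a b c ∧ ¬ Good a b S ε w x c)

lemma adm {a b c : ℤ} (h : Admissible a b c) : Pool.Agent.W468.ConjF.Admissible a b c := by
  obtain ⟨h1, h2, h3, h4⟩ := h
  refine ⟨h1, ?_, ?_, h4⟩
  · intro d ha hb hc
    have h5 : d ∣ (Int.gcd (Int.gcd a b : ℤ) c : ℤ) := Int.dvd_coe_gcd (Int.dvd_coe_gcd ha hb) hc
    rw [h2] at h5
    exact isUnit_of_dvd_one (by exact_mod_cast h5)
  · rintro ⟨ha, hc⟩
    exact h3 ⟨even_iff_two_dvd.2 ha, even_iff_two_dvd.2 hc⟩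

lemma part_eq (a b c : ℤ) (z : ℕ) : Pool.Agent.W468.ConjF.CF a b c z = partialC a b c z := by
  unfold Pool.Agent.W468.ConjF.CF partialC
  have h0 : (if (2 : ℤ) ∣ a + b then (1 : ℝ) else 1 / 2) = if Odd (a + b) then 1 / 2 else 1 := by
    by_cases h : (2 : ℤ) ∣ a + b
    · rw [if_pos h, if_neg (by rw [Int.not_odd_iff_even]; exact even_iff_two_dvd.2 h)]
    · rw [if_neg h, if_pos (by rw [← Int.not_even_iff_odd]; exact fun h' => h (even_iff_two_dvd.1 h'))]
  have h1 : (range (z + 1)).filter (fun p : ℕ => p.Prime ∧ 3 ≤ p ∧ (p : ℤ) ∣ a ∧ (p : ℤ) ∣ b) =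
      (Icc 3 z).filter (fun p : ℕ => p.Prime ∧ (p : ℤ) ∣ a ∧ (p : ℤ) ∣ b) := by
    ext p
    simp only [mem_filter, mem_range, mem_Icc]
    constructor
    · rintro ⟨h1, h2, h3, h4⟩
      exact ⟨⟨h3, by omega⟩, h2, h4⟩
    · rintro ⟨⟨h1, h2⟩, h3, h4⟩
      exact ⟨by omega, h3, h1, h4⟩
  have h2 : (range (z + 1)).filter (fun p : ℕ => p.Prime ∧ 3 ≤ p ∧ ¬ (p : ℤ) ∣ a) =
      (Icc 3 z).filter (fun p : ℕ => p.Prime ∧ ¬ (p : ℤ) ∣ a) := by
    ext p
    simp only [mem_filter, mem_range, mem_Icc]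
    constructor
    · rintro ⟨h1, h2, h3, h4⟩
      exact ⟨⟨h3, by omega⟩, h2, h4⟩
    · rintro ⟨⟨h1, h2⟩, h3, h4⟩
      exact ⟨by omega, h3, h1, h4⟩
  rw [h0, h1, h2]

open Polynomial in
/-- the part of the polynomial without the constant term -/
noncomputable def G (a b : ℤ) : Fin 1 → ℤ[X] := fun _ => C a * X ^ 2 + C b * X + C 0

lemma G_eval (a b : ℤ) (i : Fin 1) (n : ℤ) : (G a b i).eval n = a * n ^ 2 + b * n := by
  simp [G]

lemma G_deg (a b : ℤ) (ha : 0 < a) (i : Fin 1) : (G a b i).natDegree = 2 :=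
  Polynomial.natDegree_quadratic ha.ne'

lemma G_lead (a b : ℤ) (ha : 0 < a) (i : Fin 1) : (G a b i).leadingCoeff = a :=
  Polynomial.leadingCoeff_quadratic ha.ne'

lemma fval (a b : ℤ) (v : Fin 1 → ℕ) (i : Fin 1) (t : ℕ) : ((v i : ℕ) : ℤ) + (G a b i).eval (t : ℤ) = f a b (v 0 : ℕ) t := by
  have : i = 0 := Subsingleton.elim _ _
  subst this
  rw [G_eval]; unfold f; ring

lemma NN_eq (a b : ℤ) (v : Fin 1 → ℕ) (S : Set ℕ) (y : ℕ) :
    Pool.Agent.U746.AS.NN (G a b) v S y = primesAt a b (v 0 : ℕ) S y := by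
  classical
  unfold Pool.Agent.U746.AS.NN primesAt
  congr 1
  apply filter_congr
  intro t _
  constructor
  · rintro ⟨h1, h2⟩
    exact ⟨h1, by have := h2 0; rwa [fval] at this⟩
  · rintro ⟨h1, h2⟩
    exact ⟨h1, fun i => by rw [fval]; exact h2⟩

lemma MM_eq (a b : ℤ) (v : Fin 1 → ℕ) (S : Set ℕ) (w y : ℕ) :
    Pool.Agent.U746.AS.MM (G a b) v S w y = sifted a b (v 0 : ℕ) S w y := by
  classical
  unfold Pool.Agent.U746.AS.MM sifted
  congr 1
  apply filter_congr
  intro t _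
  constructor
  · rintro ⟨h1, h2⟩
    refine ⟨h1, fun p hp hw => ?_⟩
    have := h2 0 p (Pool.Agent.H373R2.T7.mem_pz.2 ⟨hw, hp⟩)
    rwa [fval] at this
  · rintro ⟨h1, h2⟩
    refine ⟨h1, fun i p hp => ?_⟩
    obtain ⟨h3, h4⟩ := Pool.Agent.H373R2.T7.mem_pz.1 hp
    rw [fval]
    exact h2 p h4 h3

lemma Lam_eq (a b : ℤ) (ha : 0 < a) (x : ℕ) : Pool.Agent.U746.AS.Lam (G a b) x = 2 * Real.log x := by
  unfold Pool.Agent.U746.AS.Lam
  rw [Fin.prod_univ_one, G_deg a b ha]
  norm_num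

/-- vectors with one entry -/
lemma box_card (H : ℕ) (P : ℕ → Prop) (Q : (Fin 1 → ℕ) → Prop) [DecidablePred P] [DecidablePred Q] (h : ∀ v : Fin 1 → ℕ, v 0 ∈ Icc 1 H → P (v 0) → Q v) :
    ((Icc 1 H).filter P).card ≤ ((Fintype.piFinset (fun _ : Fin 1 => Icc 1 H)).filter Q).card := by
  apply card_le_card_of_injOn (fun c => (fun _ : Fin 1 => c))
  · intro c hc
    rw [mem_coe, mem_filter] at hc
    rw [mem_coe, mem_filter, Fintype.mem_piFinset]
    exact ⟨fun _ => hc.1, h _ hc.1 hc.2⟩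
  · intro c _ c' _ hcc
    exact congrFun hcc 0

lemma sifted_univ (a b c : ℤ) (S : Set ℕ) (w y : ℕ) : sifted a b c S w y ≤ sifted a b c Set.univ w y := by
  classical
  unfold sifted
  apply card_le_card
  intro t ht
  simp only [mem_filter] at ht ⊢
  exact ⟨ht.1, trivial, ht.2.2⟩

lemma rho_eq (a b : ℤ) (v : Fin 1 → ℕ) (p : ℕ) : Pool.Agent.U746.AS.rho (G a b) v p = rho a b (v 0 : ℕ) p := by
  classical
  unfold Pool.Agent.U746.AS.rho rho
  congr 1
  apply filter_congr
  intro r _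
  constructor
  · rintro ⟨i, hi⟩; rwa [fval] at hi
  · intro h; exact ⟨0, by rwa [fval]⟩

lemma exp_small (v : ℝ) (h0 : 0 ≤ v) (h1 : v ≤ 1 / 2) : Real.exp v - 1 ≤ 2 * v := by
  have h2 := Real.add_one_le_exp (-v)
  have h3 : Real.exp v * Real.exp (-v) = 1 := by rw [← Real.exp_add]; simp
  have h4 : 0 < Real.exp v := Real.exp_pos v
  have h5 : Real.exp v * (1 - v) ≤ 1 := by
    rw [← h3]; exact mul_le_mul_of_nonneg_left (by linarith) h4.le
  nlinarith

/-- **Conjecture F along arbitrary sets of arguments, for almost all constant terms.** -/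
theorem result (a b : ℤ) (ha : 0 < a) (B : ℕ) (hB : 1 ≤ B) (ε : ℝ) (hε : 0 < ε) :
    ∃ w₀ : ℕ, ∀ w : ℕ, w₀ ≤ w → ∃ x₀ : ℕ, ∀ x : ℕ, x₀ ≤ x → ∀ H : ℕ, H ≤ B * x ^ 2 → x ^ 2 ≤ B * H →
      ∀ S : Set ℕ, ((exceptions a b S ε w x H).card : ℝ) ≤ ε * H := by
  classical
  have hd : ∀ i, 1 ≤ (G a b i).natDegree := fun i => by rw [G_deg a b ha i]; norm_num
  have hl : ∀ i, 0 < (G a b i).leadingCoeff := fun i => by rw [G_lead a b ha i]; exact ha
  -- the parameters
  set v : ℝ := min (1 / 2) (ε ^ 2 / 24) with hv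
  have hv0 : 0 < v := by rw [hv]; positivity
  have hv2 : v ≤ 1 / 2 := min_le_left _ _
  have hv3 : v ≤ ε ^ 2 / 24 := min_le_right _ _
  obtain ⟨w0, hw03, h0⟩ := Pool.Agent.U746.AS.arb (G a b) hd hl B hB (ε / 3) (by positivity)
  obtain ⟨z₀, hz₀⟩ := Pool.Agent.W468.ConjF.good_most a b ha (v / 2) (ε / 3) (by positivity) (by positivity)
  refine ⟨max (max w0 z₀) (max a.toNat (⌈8 / v⌉₊)), fun w hw => ?_⟩
  have hw0 : w0 ≤ w := ((le_max_left _ _).trans (le_max_left _ _)).trans hw
  have hwz : z₀ ≤ w := ((le_max_right _ _).trans (le_max_left _ _)).trans hw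
  have hwa : a.toNat ≤ w := ((le_max_left _ _).trans (le_max_right _ _)).trans hw
  have hwv : 8 / v ≤ w := (Nat.le_ceil _).trans (by exact_mod_cast ((le_max_right _ _).trans (le_max_right _ _)).trans hw)
  have hw3 : 3 ≤ w := hw03.trans hw0
  have hwpos : (0 : ℝ) < w := by exact_mod_cast (by omega : 0 < w)
  have hwv' : 4 / (w : ℝ) ≤ v / 2 := by
    rw [div_le_iff₀ hv0] at hwv
    rw [div_le_iff₀ hwpos]
    linarith
  set W : ℕ := Pool.Agent.U746.AS.WW w with hW
  set Vi : ℝ := (Pool.Agent.H373R2.T7.Vz w)⁻¹ with hVi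
  have hVi0 : 0 < Vi := inv_pos.2 (Pool.Agent.H373R2.T7.Vz_pos w)
  obtain ⟨x1, h1⟩ := h0 w hw0
  obtain ⟨H1, hH1⟩ := hz₀ w hwz
  obtain ⟨H2, hH2⟩ := Pool.Agent.U746.AS.SS_large (G a b) w (by omega)
  refine ⟨max (max x1 3) (max (max (B * H1) (B * H2)) ⌈Vi * W * ε⌉₊), fun x hx H hHx hxH S => ?_⟩
  have hx1 : x1 ≤ x := ((le_max_left _ _).trans (le_max_left _ _)).trans hx
  have hx3 : 3 ≤ x := ((le_max_right _ _).trans (le_max_left _ _)).trans hx
  have hxH1 : B * H1 ≤ x := (((le_max_left _ _).trans (le_max_left _ _)).trans (le_max_right _ _)).trans hx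
  have hxH2 : B * H2 ≤ x := (((le_max_right _ _).trans (le_max_left _ _)).trans (le_max_right _ _)).trans hx
  have hxW : Vi * W * ε ≤ x := (Nat.le_ceil _).trans (by exact_mod_cast ((le_max_right _ _).trans (le_max_right _ _)).trans hx)
  have hxx : x ≤ x ^ 2 := Nat.le_self_pow (by norm_num) x
  have hHH1 : H1 ≤ H := Nat.le_of_mul_le_mul_left ((hxH1.trans hxx).trans hxH) (by omega)
  have hHH2 : H2 ≤ H := Nat.le_of_mul_le_mul_left ((hxH2.trans hxx).trans hxH) (by omega)
  have hl0 : 0 < Real.log x := Real.log_pos (by exact_mod_cast (by omega : 1 < x))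
  have hx0 : (0 : ℝ) < x := by exact_mod_cast (by omega : 0 < x)
  have hH0 : (0 : ℝ) ≤ H := Nat.cast_nonneg H
  have k1 := h1 x hx1 (fun _ => H) (fun i => by rw [G_deg a b ha i]; exact ⟨hHx, hxH⟩) S
  simp only [prod_const, card_univ, Fintype.card_fin, pow_one] at k1
  obtain ⟨E, hE1, hE2⟩ := hH1 H hHH1
  have k3 := hH2 H hHH2 (6 / ε) (by positivity)
  have e6 : 2 * (H : ℝ) / (6 / ε) = ε / 3 * H := by field_simp; ring
  rw [e6] at k3
  -- the exceptional sets
  set E1 := (Icc 1 H).filter (fun c : ℕ => ¬ ∀ y : ℕ, y ≤ x → |2 * Real.log x * primesAt a b c S y -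
    Vi * sifted a b c S w y| ≤ ε / 3 * x) with hE1d
  set E3 := (Icc 1 H).filter (fun c : ℕ => 6 / ε < Pool.Agent.U746.AS.SS (G a b) (fun _ => c) w) with hE3d
  have c1 : (E1.card : ℝ) ≤ ε / 3 * H := by
    refine le_trans ?_ k1
    apply Nat.cast_le.2
    rw [hE1d]
    refine box_card H _ _ ?_
    intro u _ h2 h3
    apply h2
    intro y hy
    have h4 := h3 y hy
    rw [NN_eq, MM_eq, Lam_eq a b ha] at h4
    exact h4
  have hsub : exceptions a b S ε w x H ⊆ (E1 ∪ E) ∪ E3 := by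
    intro c hc
    unfold exceptions at hc
    rw [mem_filter] at hc
    obtain ⟨hcI, hadm, hng⟩ := hc
    by_contra hcon
    rw [mem_union, mem_union, not_or, not_or] at hcon
    obtain ⟨⟨n1, n2⟩, n3⟩ := hcon
    apply hng
    have g1 : ∀ y : ℕ, y ≤ x → |2 * Real.log x * primesAt a b c S y - Vi * sifted a b c S w y| ≤ ε / 3 * x := by
      by_contra h2
      exact n1 (mem_filter.2 ⟨hcI, h2⟩)
    have g3 : Pool.Agent.U746.AS.SS (G a b) (fun _ => c) w ≤ 6 / ε := by
      by_contra h2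
      exact n3 (mem_filter.2 ⟨hcI, not_le.1 h2⟩)
    have g2 := hE2 c hcI n2 hadm.2.2.2
    obtain ⟨K, hK0, hK⟩ := Pool.Agent.W468.ConjF.CF_tendsto a b c ha hadm.2.2.2
    have hcl := Pool.Agent.U746.AS.CF_close a b c ha K hK w (by omega) (by omega) (v / 2) g2
    have hSS : Pool.Agent.U746.AS.SS (G a b) (fun _ => c) w = 2 * Pool.Agent.W468.ConjF.CF a b c w := by
      rw [← Pool.Agent.W468.ConjF.euler_eq a b c (adm hadm) w (by omega)
        (fun _ => Pool.Agent.W468.ConjF.P a b c) (fun _ => rfl)]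
      apply Pool.Agent.U746.AS.SS_euler
      intro i n
      rw [G_eval, Pool.Agent.W468.ConjF.eval_P]
      ring
    set SSc := Pool.Agent.U746.AS.SS (G a b) (fun _ => c) w with hSSc
    have hCF0 := Pool.Agent.W468.ConjF.CF_pos a b c w
    have hSSpos : 0 < SSc := by rw [hSS]; linarith
    set Pw : ℝ := ∏ p ∈ (Icc 1 w).filter Nat.Prime, (1 - (rho a b c p : ℝ) / p) with hPw
    have hSSPw : SSc = Vi * Pw := by
      rw [hSSc]
      unfold Pool.Agent.U746.AS.SS
      rw [pow_one]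
      congr 1
      rw [hPw]
      apply prod_congr rfl
      intro p _
      rw [rho_eq]
    have hPw0 : 0 < Pw := by
      by_contra h
      have := mul_nonpos_of_nonneg_of_nonpos hVi0.le (not_lt.1 h)
      rw [← hSSPw] at this
      linarith
    have hexp : Real.exp (v / 2 + 4 / w) - 1 ≤ ε ^ 2 / 12 := by
      have h2 : Real.exp (v / 2 + 4 / w) ≤ Real.exp v := Real.exp_le_exp.2 (by linarith)
      have h3 := exp_small v hv0.le hv2
      linarith
    have h2K : |SSc - 2 * K| ≤ SSc * (ε ^ 2 / 12) := by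
      have e1 : SSc - 2 * K = -(2 * (K - Pool.Agent.W468.ConjF.CF a b c w)) := by rw [hSS]; ring
      rw [e1, abs_neg, abs_mul, abs_of_pos (show (0 : ℝ) < 2 by norm_num)]
      calc 2 * |K - Pool.Agent.W468.ConjF.CF a b c w| ≤
          2 * (Pool.Agent.W468.ConjF.CF a b c w * (Real.exp (v / 2 + 4 / w) - 1)) := by linarith
        _ = SSc * (Real.exp (v / 2 + 4 / w) - 1) := by rw [hSS]; ring
        _ ≤ SSc * (ε ^ 2 / 12) := mul_le_mul_of_nonneg_left hexp hSSpos.le
    refine ⟨K, hK0, ?_, fun y hy => ?_⟩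
    · unfold IsC
      refine hK.congr fun z => ?_
      rw [part_eq]
    · have g4 := g1 y hy
      -- the sifted set is not larger than for all integers
      have hyx : (y : ℝ) ≤ x := by exact_mod_cast hy
      have hM1 : (sifted a b c S w y : ℝ) ≤ Pw * x + W := by
        have h5 : sifted a b c S w y ≤ Pool.Agent.U746.AS.MM (G a b) (fun _ => c) Set.univ w y := by
          rw [MM_eq]
          exact sifted_univ a b c S w y
        have h6 := Pool.Agent.U746.AS.MM_equi (G a b) (fun _ => c) Set.univ w y 1 (fun r hr => by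
          exact Pool.Agent.U746.AS.univ_equi _ r y (Pool.Agent.U746.AS.WW_pos w) (mem_range.1 hr)) zero_le_one
        have h7 : ∏ p ∈ Pool.Agent.H373R2.T7.pz w, (1 - (Pool.Agent.U746.AS.rho (G a b) (fun _ => c) p : ℝ) / p) = Pw := by
          rw [hPw]
          apply prod_congr rfl
          intro p _
          rw [rho_eq]
        rw [h7, mul_one] at h6
        have h8 : (Pool.Agent.U746.AS.cntS Set.univ y : ℝ) ≤ x := by
          have h9 : (Pool.Agent.U746.AS.cntS Set.univ y : ℝ) ≤ y := by exact_mod_cast Pool.Agent.U746.AS.cntS_le _ y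
          linarith
        have h9 := mul_le_mul_of_nonneg_left h8 hPw0.le
        have h10 : (sifted a b c S w y : ℝ) ≤ Pool.Agent.U746.AS.MM (G a b) (fun _ => c) Set.univ w y := by exact_mod_cast h5
        have h11 := (abs_le.1 h6).2
        linarith
      set N : ℝ := (primesAt a b c S y : ℝ) with hN
      set M : ℝ := (sifted a b c S w y : ℝ) with hM
      have hM0 : 0 ≤ M := Nat.cast_nonneg _
      have hcor : corrected a b c S w y = M / Pw := rfl
      rw [hcor]
      have hVM : Vi * M = SSc * (M / Pw) := by rw [hSSPw]; field_simp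
      have h5 : |(SSc - 2 * K) * (M / Pw)| ≤ ε / 2 * x + ε / 12 * x := by
        rw [abs_mul, abs_of_nonneg (div_nonneg hM0 hPw0.le)]
        calc |SSc - 2 * K| * (M / Pw) ≤ SSc * (ε ^ 2 / 12) * (M / Pw) :=
              mul_le_mul_of_nonneg_right h2K (div_nonneg hM0 hPw0.le)
          _ = (ε ^ 2 / 12) * (Vi * M) := by rw [hVM]; ring
          _ ≤ (ε ^ 2 / 12) * (Vi * (Pw * x + W)) := by gcongr
          _ = (ε ^ 2 / 12) * (SSc * x) + (ε / 12) * (Vi * W * ε) := by rw [hSSPw]; ring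
          _ ≤ (ε ^ 2 / 12) * (6 / ε * x) + (ε / 12) * x := by gcongr
          _ = ε / 2 * x + ε / 12 * x := by field_simp; ring
      have h6 : |2 * Real.log x * N - 2 * K * (M / Pw)| ≤ ε / 3 * x + (ε / 2 * x + ε / 12 * x) := by
        have e1 : 2 * Real.log x * N - 2 * K * (M / Pw) = (2 * Real.log x * N - Vi * M) + (SSc - 2 * K) * (M / Pw) := by
          rw [hVM]; ring
        rw [e1]
        exact (abs_add_le _ _).trans (add_le_add g4 h5)
      have e1 : N - K * (M / Pw) / Real.log x = (2 * Real.log x * N - 2 * K * (M / Pw)) / (2 * Real.log x) := by field_simp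
      rw [e1, abs_div, abs_of_pos (show 0 < 2 * Real.log x by linarith), div_le_iff₀ (by linarith)]
      have e2 : ε * x / Real.log x * (2 * Real.log x) = 2 * (ε * x) := by field_simp
      rw [e2]
      have hεx : 0 ≤ ε * x := by positivity
      linarith
  calc ((exceptions a b S ε w x H).card : ℝ) ≤ ((E1 ∪ E) ∪ E3).card := by exact_mod_cast card_le_card hsub
    _ ≤ E1.card + E.card + E3.card := by
        have h2 := card_union_le (E1 ∪ E) E3
        have h3 := card_union_le E1 E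
        have : ((E1 ∪ E) ∪ E3).card ≤ E1.card + E.card + E3.card := by omega
        exact_mod_cast this
    _ ≤ ε / 3 * H + ε / 3 * H + ε / 3 * H := by linarith
    _ = ε * H := by ring

end Pool.Agent.Results.MP_a17b09_nt.ArbitrarySets
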