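import Pool.Agent.U918.LP.Core

/-!
# Conjecture F for `a t² + b t + c`, on average over `c`, with arbitrary weights on the `t`

Fix integers `a ≥ 1` and `b`, and let `w` be ANY bounded real weight on the integers `t ≤ X`, for example the indicator
of an arbitrary set. For all but a share `log ^ (-U) X` of the vectors `(c₁, …, c_r)` of integers `1 ≤ c_i ≤ B X²`, the
sum of `w t` over the `t > |b|` for which all the numbers `a t² + b t + c_i` are prime is the sum of
`w t ∏ 1 / (V z log (a t² + b t + c_i))` over the `t > |b|` for which all the numbers `a t² + b t + c_i` are free of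
primes `≤ z`, up to an error `X / log ^ D X`; here `z` is a power of `log X`, `V z = ∏_{p ≤ z} (1 - 1/p)`, and this holds
simultaneously for all initial intervals `t ≤ y`, `y ≤ X`, and all residue classes of `t` to all moduli up to
`log ^ K X`.
-/

set_option autoImplicit false

open Finset

namespace Pool.Agent.Results.MP_a17b09_nt.ArbitraryWeights

/-- the product of `1 - 1/p` over the primes `p ≤ z` -/
noncomputable def V (z : ℕ) : ℝ := ∏ p ∈ (Icc 1 z).filter Nat.Prime, (1 - 1 / (p : ℝ))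

/-- the value `a t² + b t + c` (and `0` if this is negative) -/
def value (a b : ℤ) (c t : ℕ) : ℕ := (a * (t : ℤ) ^ 2 + b * t + c).toNat

open Classical in
/-- the sum of `w t` over the `t`, `|b| < t ≤ y`, `t ≡ s mod q`, for which all the numbers `a t² + b t + c i` are
prime -/
noncomputable def primeSum {r : ℕ} (a b : ℤ) (w : ℕ → ℝ) (c : Fin r → ℕ) (q s y : ℕ) : ℝ :=
  ∑ t ∈ (Icc 1 y).filter (fun t => b.natAbs < t ∧ t ≡ s [MOD q] ∧ ∀ i, (value a b (c i) t).Prime), w t

open Classical in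
/-- the sum of `w t / ∏ (V z · log (a t² + b t + c i))` over the `t`, `|b| < t ≤ y`, `t ≡ s mod q`, for which no prime
`p ≤ z` divides any of the numbers `a t² + b t + c i` -/
noncomputable def modelSum {r : ℕ} (a b : ℤ) (z : ℕ) (w : ℕ → ℝ) (c : Fin r → ℕ) (q s y : ℕ) : ℝ :=
  ∑ t ∈ (Icc 1 y).filter (fun t => b.natAbs < t ∧ t ≡ s [MOD q] ∧
    ∀ i, ∀ p : ℕ, p.Prime → p ≤ z → ¬ p ∣ value a b (c i) t), w t * ∏ i, (V z * Real.log (value a b (c i) t))⁻¹

/-- the shift of the argument -/
def sh (b : ℤ) : ℕ := if 0 ≤ b then 0 else b.natAbs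

/-- the linear coefficient after the shift -/
def lc (a b : ℤ) : ℕ := if 0 ≤ b then b.natAbs else (2 * a.natAbs - 1) * b.natAbs

/-- the constant coefficient after the shift -/
def cc (a b : ℤ) : ℕ := if 0 ≤ b then 0 else (a.natAbs - 1) * b.natAbs ^ 2

theorem sh_le (b : ℤ) : sh b ≤ b.natAbs := by
  unfold sh
  split_ifs <;> omega

theorem quad_sh (a b : ℤ) (ha : 1 ≤ a) (s : ℕ) : a * ((s + sh b : ℕ) : ℤ) ^ 2 + b * ((s + sh b : ℕ) : ℤ) =
    ((a.natAbs * s ^ 2 + lc a b * s + cc a b : ℕ) : ℤ) := by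
  obtain ⟨k, rfl⟩ : ∃ k : ℕ, a = k + 1 := ⟨(a - 1).toNat, by omega⟩
  have e : ((k : ℤ) + 1).natAbs = k + 1 := by omega
  unfold sh lc cc
  rw [e]
  split_ifs with hb
  · push_cast
    rw [abs_of_nonneg hb]
    ring
  · push Not at hb
    have e2 : 2 * (k + 1) - 1 = 2 * k + 1 := by omega
    rw [e2, Nat.add_sub_cancel]
    push_cast
    rw [abs_of_neg hb]
    ring

theorem value_sh (a b : ℤ) (ha : 1 ≤ a) (c s : ℕ) :
    value a b c (s + sh b) = Pool.Agent.U918.LP.va true (fun m => a.natAbs * m ^ 2 + lc a b * m + cc a b) s c := by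
  unfold value Pool.Agent.U918.LP.va
  rw [if_pos rfl, quad_sh a b ha s]
  dsimp only
  omega

theorem reindex (b : ℤ) (Q : ℕ → Prop) [DecidablePred Q] [DecidablePred fun s => Q (s + sh b)] (g : ℕ → ℝ) (y : ℕ)
    (hQ : ∀ m, Q m → b.natAbs < m) :
    ∑ m ∈ (Icc 1 y).filter Q, g m = ∑ s ∈ (Icc 1 (y - sh b)).filter (fun s => Q (s + sh b)), g (s + sh b) := by
  have hsh := sh_le b
  refine sum_bij' (fun m _ => m - sh b) (fun s _ => s + sh b) ?_ ?_ ?_ ?_ ?_
  · intro m hm
    rw [mem_filter, mem_Icc] at hm ⊢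
    have h1 := hQ m hm.2
    have h2 : m - sh b + sh b = m := by omega
    rw [h2]
    exact ⟨by omega, hm.2⟩
  · intro s hs
    rw [mem_filter, mem_Icc] at hs ⊢
    exact ⟨by omega, hs.2⟩
  · intro m hm
    rw [mem_filter, mem_Icc] at hm
    have h1 := hQ m hm.2
    omega
  · intro s _
    omega
  · intro m hm
    rw [mem_filter, mem_Icc] at hm
    have h1 := hQ m hm.2
    have h2 : m - sh b + sh b = m := by omega
    rw [h2]

theorem modEq_sh (b : ℤ) (s q a : ℕ) (hq : 1 ≤ q) : s + sh b ≡ a [MOD q] ↔ s ≡ a + (q - 1) * sh b [MOD q] := by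
  obtain ⟨k, rfl⟩ : ∃ k, q = k + 1 := ⟨q - 1, by omega⟩
  have h1 : a + (k + 1) * sh b ≡ a [MOD (k + 1)] := by
    simp
  rw [Nat.add_sub_cancel]
  constructor
  · intro h
    have h2 : s + sh b ≡ (a + k * sh b) + sh b [MOD (k + 1)] := by
      have e : (a + k * sh b) + sh b = a + (k + 1) * sh b := by ring
      rw [e]
      exact h.trans h1.symm
    exact Nat.ModEq.add_right_cancel' (sh b) h2
  · intro h
    have h2 := Nat.ModEq.add_right (sh b) h
    have e : (a + k * sh b) + sh b = a + (k + 1) * sh b := by ring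
    rw [e] at h2
    exact h2.trans h1

open Classical in
/-- **The theorem.** Let `a ≥ 1` and `b` be integers. For all `r`, `B`, `U`, `D`, `K` there is `B₀` such that for every
`E`, every large `X`, every integer `z` with `log ^ B₀ X ≤ z ≤ log ^ E X` and EVERY weight `w` with `|w t| ≤ 1`: for all
but at most `X ^ (2 r) / log ^ U X` of the vectors `c` of integers `1 ≤ c i ≤ B X²`, one has for all `y ≤ X`, all moduli
`1 ≤ q ≤ log ^ K X` and all classes `s` that `primeSum a b w c q s y` and `modelSum a b z w c q s y` differ by at most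
`X / log ^ D X`. -/
theorem result (a b : ℤ) (ha : 1 ≤ a) (r B U D K : ℕ) :
    ∃ B₀ : ℕ, ∀ E : ℕ, ∃ X₀ : ℕ, ∀ X : ℕ, X₀ ≤ X → ∀ z : ℕ, Real.log X ^ B₀ ≤ z → (z : ℝ) ≤ Real.log X ^ E →
    ∀ w : ℕ → ℝ, (∀ t, |w t| ≤ 1) →
    (((Fintype.piFinset (fun _ : Fin r => Icc 1 (B * X ^ 2))).filter (fun c =>
      ∃ y ≤ X, ∃ q s : ℕ, 1 ≤ q ∧ (q : ℝ) ≤ Real.log X ^ K ∧
        (X : ℝ) / Real.log X ^ D < |primeSum a b w c q s y - modelSum a b z w c q s y|)).card : ℝ) ≤
      (X : ℝ) ^ (2 * r) / Real.log X ^ U := by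
  have ha1 : 1 ≤ a.natAbs := by omega
  have hA : (a.natAbs : ℤ) ≠ 0 := by omega
  have hdeg : (Polynomial.C (a.natAbs : ℤ) * Polynomial.X ^ 2 + Polynomial.C (lc a b : ℤ) * Polynomial.X +
      Polynomial.C (cc a b : ℤ) : Polynomial ℤ).natDegree = 2 := Polynomial.natDegree_quadratic hA
  obtain ⟨B₀, h0⟩ := Pool.Agent.U918.LP.core r
    (fun _ => (Polynomial.C (a.natAbs : ℤ) * Polynomial.X ^ 2 + Polynomial.C (lc a b : ℤ) * Polynomial.X +
      Polynomial.C (cc a b : ℤ) : Polynomial ℤ))
    (fun _ => by rw [hdeg]; norm_num) (fun _ => by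
      rw [Polynomial.leadingCoeff_quadratic hA]
      exact_mod_cast ha1)
    (fun _ m => a.natAbs * m ^ 2 + lc a b * m + cc a b) (fun _ m => by
      rw [Polynomial.eval_add, Polynomial.eval_add, Polynomial.eval_mul, Polynomial.eval_C, Polynomial.eval_pow,
        Polynomial.eval_X, Polynomial.eval_mul, Polynomial.eval_C, Polynomial.eval_X, Polynomial.eval_C]
      push_cast
      ring) (fun _ u v huv => by dsimp only; gcongr) (fun _ => true) B U D K
  refine ⟨B₀, fun E => ?_⟩
  obtain ⟨x0, hx0⟩ := h0 E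
  refine ⟨x0, fun X hX z hz1 hz2 w hw => ?_⟩
  have key := hx0 X hX z hz1 hz2 (fun s => if b.natAbs < s + sh b then w (s + sh b) else 0)
    (fun s => by
      split_ifs
      · exact hw _
      · simp)
  simp only [hdeg] at key
  rw [prod_const, card_univ, Fintype.card_fin, ← pow_mul] at key
  -- the two sums
  have e1 : ∀ (c : Fin r → ℕ) (q s y : ℕ), 1 ≤ q → primeSum a b w c q s y = Pool.Agent.U918.LP.PS
      (fun _ : Fin r => true) (fun _ m => a.natAbs * m ^ 2 + lc a b * m + cc a b)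
      (fun s => if b.natAbs < s + sh b then w (s + sh b) else 0) c q (s + (q - 1) * sh b) (y - sh b) := by
    intro c q s y hq
    unfold primeSum Pool.Agent.U918.LP.PS
    rw [reindex b _ w y (fun m hm => hm.1), ← sum_filter, filter_filter]
    apply sum_congr _ (fun _ _ => rfl)
    apply filter_congr
    intro t _
    rw [modEq_sh b t q s hq]
    simp only [value_sh a b ha]
    tauto
  have e2 : ∀ (c : Fin r → ℕ) (q s y : ℕ), 1 ≤ q → modelSum a b z w c q s y = Pool.Agent.U918.LP.MS
      (fun _ : Fin r => true) (fun _ m => a.natAbs * m ^ 2 + lc a b * m + cc a b) z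
      (fun s => if b.natAbs < s + sh b then w (s + sh b) else 0) c q (s + (q - 1) * sh b) (y - sh b) := by
    intro c q s y hq
    unfold modelSum Pool.Agent.U918.LP.MS
    rw [reindex b _ (fun t => w t * ∏ i, (V z * Real.log (value a b (c i) t))⁻¹) y (fun m hm => hm.1)]
    simp only [ite_mul, zero_mul]
    rw [← sum_filter, filter_filter]
    apply sum_congr
    · apply filter_congr
      intro t _
      rw [modEq_sh b t q s hq]
      simp only [value_sh a b ha]
      tauto
    · intro t _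
      simp only [value_sh a b ha]
      rfl
  refine le_trans ?_ key
  exact_mod_cast card_le_card (by
    intro c hc
    rw [mem_filter] at hc ⊢
    obtain ⟨hc1, y, hy, q, s, hq1, hq2, hlt⟩ := hc
    refine ⟨hc1, y - sh b, (Nat.sub_le _ _).trans hy, q, s + (q - 1) * sh b, hq1, hq2, ?_⟩
    rw [← e1 c q s y hq1, ← e2 c q s y hq1]
    exact hlt)

end Pool.Agent.Results.MP_a17b09_nt.ArbitraryWeights
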