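import Pool.Agent.U607.QdUni
import Pool.Agent.U607.GapShift

set_option autoImplicit false

/-!
# Almost prime values of quadratic polynomials: windows of polylogarithmic length and gaps
-/

namespace Pool.Agent.Results.MP_a17b09_nt.GapsOfAlmostPrimeArguments

open Finset Filter
open Pool.Agent.U607
open Pool.Agent.U607.QD (QG QG_eval rt)

/-- `m` has at most `r` prime factors (counted with multiplicity), all of them at least `z`. -/
def AlmostPrime (r : ℕ) (z : ℝ) (m : ℤ) : Prop :=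
  m.natAbs.primeFactorsList.length ≤ r ∧ ∀ q : ℕ, q.Prime → (q : ℤ) ∣ m → z ≤ q

open Classical in
/-- The number of the `t` in `(n, n + H]` such that `a t ^ 2 + b t + c` is an almost prime. -/
noncomputable def arguments (a b c : ℤ) (r : ℕ) (z : ℝ) (n H : ℕ) : ℕ :=
  ((Ioc n (n + H)).filter (fun t : ℕ => AlmostPrime r z (a * (t : ℤ) ^ 2 + b * t + c))).card

open Classical in
/-- The pairs `t < t'` of consecutive elements of `(M, M + Y]` among the `t` such that
`a t ^ 2 + b t + c` is an almost prime. -/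
noncomputable def consecutive (a b c : ℤ) (r : ℕ) (z : ℝ) (M Y : ℕ) : Finset (ℕ × ℕ) :=
  ((Ioc M (M + Y)) ×ˢ (Ioc M (M + Y))).filter
    (fun s => AlmostPrime r z (a * (s.1 : ℤ) ^ 2 + b * s.1 + c) ∧
      AlmostPrime r z (a * (s.2 : ℤ) ^ 2 + b * s.2 + c) ∧ s.1 < s.2 ∧
      ∀ m : ℕ, s.1 < m → m < s.2 → ¬ AlmostPrime r z (a * (m : ℤ) ^ 2 + b * m + c))

/-- The constants of the weighted sieve: `Λ 5 = 4.74...`, `Λ 6 = 5.73...`. -/
noncomputable def Λ (r : ℕ) : ℝ := 1 + Real.log ((3 ^ r + 1) / 4) / Real.log 3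

theorem no_fixed (a b c : ℤ) (hgcd : ∀ p : ℕ, p.Prime → (p : ℤ) ∣ a → (p : ℤ) ∣ b → ¬ (p : ℤ) ∣ c)
    (hpar : ¬ ((2 : ℤ) ∣ a + b ∧ (2 : ℤ) ∣ c)) (p : ℕ) (hp : p.Prime) :
    ∃ n : ℤ, ¬ (p : ℤ) ∣ (QG a b c).eval n := by
  by_contra hcon
  push Not at hcon
  have h0 := hcon 0
  have h1 := hcon 1
  have h2 := hcon (-1)
  rw [QG_eval] at h0 h1 h2
  have e0 : a * 0 ^ 2 + b * 0 + c = c := by ring
  rw [e0] at h0
  have h3 : (p : ℤ) ∣ a + b := by
    have := dvd_sub h1 h0
    have e : a * 1 ^ 2 + b * 1 + c - c = a + b := by ring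
    rwa [e] at this
  by_cases hp2 : p = 2
  · apply hpar
    rw [hp2] at h3 h0
    exact ⟨h3, h0⟩
  · have hpZ : Prime (p : ℤ) := Nat.prime_iff_prime_int.1 hp
    have h4 : (p : ℤ) ∣ 2 * a := by
      have := dvd_add h3 (dvd_sub h2 h0)
      have e : a + b + (a * (-1) ^ 2 + b * (-1) + c - c) = 2 * a := by ring
      rwa [e] at this
    have h5 : (p : ℤ) ∣ a := by
      rcases hpZ.dvd_or_dvd h4 with h | h
      · exfalso
        have h6 : p ∣ 2 := by exact_mod_cast h
        have h7 := (Nat.prime_dvd_prime_iff_eq hp Nat.prime_two).1 h6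
        exact hp2 h7
      · exact h
    have h6 : (p : ℤ) ∣ b := by
      have := dvd_sub h3 h5
      have e : a + b - a = b := by ring
      rwa [e] at this
    exact hgcd p hp h5 h6 h0

theorem rt_lt (a b c : ℤ) (p : ℕ) (hp : p.Prime) (h : ∃ n : ℤ, ¬ (p : ℤ) ∣ (QG a b c).eval n) :
    rt (fun n => (QG a b c).eval n) p < p := by
  classical
  obtain ⟨n, hn⟩ := h
  have hp0 : (0 : ℤ) < p := by exact_mod_cast hp.pos
  unfold rt
  have h1 : (range p).filter (fun m : ℕ => (p : ℤ) ∣ (fun n => (QG a b c).eval n) (m : ℤ)) ⊂ range p := by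
    rw [Finset.ssubset_iff_of_subset (filter_subset _ _)]
    refine ⟨(n % p).toNat, ?_, ?_⟩
    · rw [mem_range]
      have h1 := Int.emod_lt_of_pos n hp0
      have h2 := Int.emod_nonneg n hp0.ne'
      omega
    · rw [mem_filter, not_and]
      intro _ h2
      apply hn
      have h3 : (p : ℤ) ∣ n - ((n % p).toNat : ℤ) := by
        rw [Int.toNat_of_nonneg (Int.emod_nonneg _ hp0.ne')]
        exact Int.dvd_self_sub_emod
      exact (QD.per_dvd (QD.per_eval (QG a b c)) h3).2 h2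
  have h2 := card_lt_card h1
  rwa [card_range] at h2

open Classical in
/-- **Theorem.**  Let `(a, b, c)` be admissible: `a > 0`, no prime divides `a`, `b` and `c`, `a + b`
and `c` are not both even, `b ^ 2 - 4 a c` is no square.  Let `0 < θ ≤ 1` and `θ Λ(r) > 4`, for
instance `r = 5` and `θ ≥ 0.844` or `r = 6` and `θ ≥ 0.7`.  There are `w, δ, C > 0` such that for all
large `X` and all intervals `(M, M + Y]` with `M + Y ≤ X`, `Y ≥ X ^ θ`, where `P` denotes the set of
the `t` for which `a t ^ 2 + b t + c` has at most `r` prime factors, all at least `X ^ w`: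

1. for all `H₀ ≥ 1`, all but at most `C Y (log X) ^ 12 / H₀` of the `n` in the interval have the
property that for ALL `H` with `H₀ ≤ H ≤ X` the window `(n, n + H]` contains at least
`δ H / log X` elements of `P`;
2. for all `H ≥ 1` at most `C Y (log X) ^ 12 / H ^ 2` gaps between consecutive elements of `P` in the
interval have length at least `H`;
3. the sum of the squares of these gaps is at most `C Y (log X) ^ 13`. -/
theorem result (a b c : ℤ) (ha : 0 < a)
    (hgcd : ∀ p : ℕ, p.Prime → (p : ℤ) ∣ a → (p : ℤ) ∣ b → ¬ (p : ℤ) ∣ c)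
    (hpar : ¬ ((2 : ℤ) ∣ a + b ∧ (2 : ℤ) ∣ c)) (hΔ : ¬ IsSquare (b ^ 2 - 4 * a * c))
    (r : ℕ) (θ : ℝ) (hθ : 4 < θ * Λ r) (hθ0 : 0 < θ) (hθ1 : θ ≤ 1) :
    ∃ w δ C : ℝ, 0 < w ∧ 0 < δ ∧ 0 < C ∧ ∀ᶠ X : ℕ in atTop, ∀ M Y : ℕ, M + Y ≤ X →
      (X : ℝ) ^ θ ≤ Y →
      (∀ H₀ : ℝ, 1 ≤ H₀ → (((Ioc M (M + Y)).filter (fun n => ∃ H : ℕ, H₀ ≤ H ∧ H ≤ X ∧
        (arguments a b c r ((X : ℝ) ^ w) n H : ℝ) < δ * H / Real.log X)).card : ℝ) ≤
          C * (Y * Real.log X ^ 12) / H₀) ∧
      (∀ H : ℝ, 1 ≤ H → (((consecutive a b c r ((X : ℝ) ^ w) M Y).filter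
        (fun s => H ≤ ((s.2 - s.1 : ℕ) : ℝ))).card : ℝ) ≤ C * (Y * Real.log X ^ 12) / H ^ 2) ∧
      ((∑ s ∈ consecutive a b c r ((X : ℝ) ^ w) M Y, (s.2 - s.1) ^ 2 : ℕ) : ℝ) ≤
        C * (Y * Real.log X ^ 13) := by
  have hex := no_fixed a b c hgcd hpar
  have hadm : ∀ p : ℕ, p.Prime → rt (fun n => (QG a b c).eval n) p < p :=
    fun p hp => rt_lt a b c p hp (hex p hp)
  have hrt : ∀ p : ℕ, p.Prime → rt (fun n => (QG a b c).eval n) p ≤ 2 :=
    fun p hp => QD.rt_le_two a b c ha.ne' hex p hp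
  have hΛ : Λ r = Pool.Agent.K3h19.RV.Lam r := rfl
  have hlog3 : (0 : ℝ) < Real.log 3 := Real.log_pos (by norm_num)
  have hΛ4 : 4 < Λ r := by
    have h1 : 0 < Λ r := by
      by_contra hcon
      push Not at hcon
      have := mul_nonpos_of_nonneg_of_nonpos hθ0.le hcon
      linarith
    nlinarith
  have hr : 1 ≤ r := by
    by_contra hcon
    have h0 : r = 0 := by omega
    rw [h0] at hΛ4
    unfold Λ at hΛ4
    have h1 : Real.log ((3 ^ 0 + 1) / 4) ≤ 0 := by
      apply Real.log_nonpos <;> norm_num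
    have h2 : Real.log ((3 ^ 0 + 1) / 4) / Real.log 3 ≤ 0 := div_nonpos_of_nonpos_of_nonneg h1 hlog3.le
    linarith
  obtain ⟨τ, hτ⟩ : ∃ τ : ℝ, τ = (1 / Λ r + θ / 4) / 2 := ⟨_, rfl⟩
  have hinv : 1 / Λ r < θ / 4 := by
    rw [div_lt_div_iff₀ (by linarith) (by norm_num)]
    linarith
  have hinv0 : 0 < 1 / Λ r := by
    apply one_div_pos.2
    linarith
  have hτ1 : 1 / Λ r < τ := by linarith
  have hτ2 : τ < θ / 4 := by linarith
  have hτΛ : 1 < τ * Pool.Agent.K3h19.RV.Lam r := by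
    rw [← hΛ]
    rwa [div_lt_iff₀ (by linarith)] at hτ1
  obtain ⟨δ, C₀, hδ, hC₀, X₀, HU⟩ := QD.uniformQ a b c ha.ne' hΔ hadm hrt r hr τ (θ / 4) (by linarith)
    (by linarith) hτΛ hτ2
  refine ⟨τ / 2, δ, 17 * (C₀ + 1), by linarith, hδ, by positivity, ?_⟩
  filter_upwards [eventually_ge_atTop (max X₀ 3)] with X hX M Y hMY hYX
  have hX1 : X₀ ≤ X := (le_max_left _ _).trans hX
  have hX3 : 3 ≤ X := (le_max_right _ _).trans hX
  have hXr : (3 : ℝ) ≤ X := by exact_mod_cast hX3
  have hX0 : (0 : ℝ) < X := by linarith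
  have hL1 : 1 ≤ Real.log X := by
    have : Real.exp 1 ≤ X := by linarith [Real.exp_one_lt_d9]
    rw [Real.le_log_iff_exp_le hX0]
    exact this
  have hL0 : 0 < Real.log X := by linarith
  have hL12 : 1 ≤ Real.log X ^ 12 := one_le_pow₀ hL1
  have hY0 : (0 : ℝ) ≤ Y := Nat.cast_nonneg _
  obtain ⟨z, hz⟩ : ∃ z : ℝ, z = (X : ℝ) ^ (τ / 2) := ⟨_, rfl⟩
  have hU := HU X hX1 M Y hMY (by
    refine le_trans (le_of_eq ?_) hYX
    congr 1
    ring)
  rw [← hz] at hU ⊢
  -- the counting function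
  have hcount : ∀ x H : ℕ, (arguments a b c r z (M + x) H) =
      (QD.goodF (fun n => (QG a b c).eval n) r z H (M + x)).card := by
    intro x H
    unfold arguments QD.goodF
    symm
    apply card_nbij' (fun j => M + x + j) (fun t => t - (M + x))
    · intro j hj
      simp only [coe_filter, Set.mem_ofPred_eq, mem_Ioc, mem_Icc] at hj ⊢
      refine ⟨⟨by omega, by omega⟩, ?_⟩
      have h1 := hj.2
      rw [QG_eval] at h1
      exact h1
    · intro t ht
      simp only [coe_filter, Set.mem_ofPred_eq, mem_Ioc, mem_Icc] at ht ⊢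
      refine ⟨⟨by omega, by omega⟩, ?_⟩
      rw [Nat.add_sub_cancel' (by omega), QG_eval]
      exact ht.2
    · intro j _
      show M + x + j - (M + x) = j
      omega
    · intro t ht
      simp only [coe_filter, Set.mem_ofPred_eq, mem_Ioc] at ht
      show M + x + (t - (M + x)) = t
      omega
  refine ⟨?_, ?_⟩
  · intro H₀ hH₀
    have h1 := hU H₀ hH₀
    have h2 : ((Ioc M (M + Y)).filter (fun n => ∃ H : ℕ, H₀ ≤ H ∧ H ≤ X ∧
        (arguments a b c r z n H : ℝ) < δ * H / Real.log X)).card =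
        ((Icc 1 Y).filter (fun x => ∃ H : ℕ, H₀ ≤ H ∧ H ≤ X ∧
      ((QD.goodF (fun n => (QG a b c).eval n) r z H (M + x)).card : ℝ) < δ * H / Real.log X)).card := by
      symm
      apply card_nbij' (fun x => M + x) (fun n => n - M)
      · intro x hx
        simp only [coe_filter, Set.mem_ofPred_eq, mem_Ioc, mem_Icc] at hx ⊢
        refine ⟨⟨by omega, by omega⟩, ?_⟩
        obtain ⟨H, a1, a2, a3⟩ := hx.2
        refine ⟨H, a1, a2, ?_⟩
        rw [hcount]
        exact a3
      · intro n hn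
        simp only [coe_filter, Set.mem_ofPred_eq, mem_Ioc, mem_Icc] at hn ⊢
        refine ⟨⟨by omega, by omega⟩, ?_⟩
        obtain ⟨H, a1, a2, a3⟩ := hn.2
        refine ⟨H, a1, a2, ?_⟩
        rw [← hcount, Nat.add_sub_cancel' (by omega)]
        exact a3
      · intro x _
        show M + x - M = x
        omega
      · intro n hn
        simp only [coe_filter, Set.mem_ofPred_eq, mem_Ioc] at hn
        show M + (n - M) = n
        omega
    rw [h2]
    refine h1.trans ?_
    rw [mul_div_assoc']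
    apply div_le_div_of_nonneg_right _ (by linarith)
    have : 0 ≤ (Y : ℝ) * Real.log X ^ 12 := by positivity
    nlinarith
  · obtain ⟨E, hE⟩ : ∃ E : ℝ, E = (C₀ + 1) * (Y * Real.log X ^ 12) := ⟨_, rfl⟩
    have hYE : (Y : ℝ) ≤ E := by
      rw [hE]
      have h1 : (Y : ℝ) * 1 ≤ Y * Real.log X ^ 12 := mul_le_mul_of_nonneg_left hL12 hY0
      have h2 : 0 ≤ C₀ * (Y * Real.log X ^ 12) := by positivity
      linarith
    have hmain := GM.from_empt (fun t : ℕ => AlmostPrime r z (a * (t : ℤ) ^ 2 + b * t + c)) M Y X E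
      (by omega) hX3 hYE (by
      intro h hh hhX
      have hhr : (1 : ℝ) ≤ h := by exact_mod_cast hh
      have h1 := hU h hhr
      have h2 : (GM.empt {n | (fun t : ℕ => AlmostPrime r z (a * (t : ℤ) ^ 2 + b * t + c)) (M + n)} Y h).card ≤
          ((Icc 1 Y).filter (fun x => ∃ H : ℕ, (h : ℝ) ≤ H ∧ H ≤ X ∧
      ((QD.goodF (fun n => (QG a b c).eval n) r z H (M + x)).card : ℝ) < δ * H / Real.log X)).card := by
        apply card_le_card
        intro x hx
        unfold GM.empt at hx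
        rw [mem_filter] at hx ⊢
        refine ⟨hx.1, h, le_rfl, hhX, ?_⟩
        have h3 : QD.goodF (fun n => (QG a b c).eval n) r z h (M + x) = ∅ := by
          rw [eq_empty_iff_forall_notMem]
          intro j hj
          unfold QD.goodF at hj
          rw [mem_filter] at hj
          apply hx.2 j hj.1
          show AlmostPrime r z (a * ((M + (x + j) : ℕ) : ℤ) ^ 2 + b * ((M + (x + j) : ℕ) : ℤ) + c)
          have h4 := hj.2
          simp only [QG_eval] at h4
          rw [← add_assoc]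
          exact h4
        rw [h3, card_empty, Nat.cast_zero]
        positivity
      have h3 : ((GM.empt {n | (fun t : ℕ => AlmostPrime r z (a * (t : ℤ) ^ 2 + b * t + c)) (M + n)} Y h).card : ℝ) ≤
          C₀ * (Y * Real.log X ^ 12 / h) := le_trans (by exact_mod_cast h2) h1
      refine h3.trans ?_
      rw [hE, mul_div_assoc']
      apply div_le_div_of_nonneg_right _ (by linarith)
      have : 0 ≤ (Y : ℝ) * Real.log X ^ 12 := by positivity
      nlinarith)
    have hcons : consecutive a b c r z M Y =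
        GM.consec (fun t : ℕ => AlmostPrime r z (a * (t : ℤ) ^ 2 + b * t + c)) M Y := rfl
    rw [hcons]
    refine ⟨?_, ?_⟩
    · intro H hH
      refine (hmain.1 H hH).trans ?_
      apply div_le_div_of_nonneg_right _ (by positivity)
      rw [hE]
      have : 0 ≤ (C₀ + 1) * ((Y : ℝ) * Real.log X ^ 12) := by positivity
      nlinarith
    · refine hmain.2.trans ?_
      have h1 : (Y : ℝ) ≤ Real.log X * E := by
        have : 0 ≤ E := hY0.trans hYE
        nlinarith
      have h2 : Real.log X * E = (C₀ + 1) * (Y * Real.log X ^ 13) := by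
        rw [hE]
        ring
      rw [h2] at h1 ⊢
      linarith

end Pool.Agent.Results.MP_a17b09_nt.GapsOfAlmostPrimeArguments
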